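import Pool.Agent.Helper44.CM.Interface

/-!
# Project MM, block B7b: the variance inequality for the class

`ST_EX`, `ST_K`, `ST_STEIN`, `ST_PAIR`, `ST_DENS` give `ST_STAR`.
-/

open MeasureTheory Matrix

namespace CM4

open CM

variable {n : ℕ}

/-! ### Matrix inequality -/

lemma tr2_nonneg {P K : Mt n} (hP : P.PosSemidef) (hK : K.PosSemidef) : 0 ≤ tr2 P K := by
  have h := (posSemidef_iff_dotProduct_mulVec.1 (hP.hadamard hK)).2 (fun _ => 1)
  simpa [tr2, dotProduct, mulVec, Matrix.hadamard_apply] using h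

lemma tr2_add (P K L : Mt n) : tr2 P (K + L) = tr2 P K + tr2 P L := by
  simp [tr2, mul_add, Finset.sum_add_distrib]

lemma tr2_sub (P K L : Mt n) : tr2 P (K - L) = tr2 P K - tr2 P L := by
  simp [tr2, mul_sub, Finset.sum_sub_distrib]

lemma tr2_smul (P K : Mt n) (s : ℝ) : tr2 P (s • K) = s * tr2 P K := by
  simp only [tr2, Matrix.smul_apply, smul_eq_mul, Finset.mul_sum]
  refine Finset.sum_congr rfl fun i _ => Finset.sum_congr rfl fun j _ => by ring

lemma tr2_comm (P K : Mt n) : tr2 P K = tr2 K P := by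
  simp only [tr2]
  refine Finset.sum_congr rfl fun i _ => Finset.sum_congr rfl fun j _ => by ring

lemma tr2_sum_left {ι : Type*} (s : Finset ι) (P : ι → Mt n) (K : Mt n) :
    tr2 (∑ a ∈ s, P a) K = ∑ a ∈ s, tr2 (P a) K := by
  classical
  induction s using Finset.induction_on with
  | empty => simp [tr2]
  | insert a s ha ih =>
    rw [Finset.sum_insert ha, Finset.sum_insert ha, ← ih, tr2_comm, tr2_add, tr2_comm K,
      tr2_comm K]

/-- The pointwise inequality behind the Cauchy-Schwarz step. -/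
lemma pw {P G T N : Mt n} {x v : Fin n → ℝ} (s : ℝ) (hP : P.PosSemidef) (hG : G.PosSemidef)
    (hGT : G * T = 1) (hTG : T * G = 1) (hT : Tᵀ = T) (hN : Nᵀ = N) :
    2 * s * (tr2 P N + ∑ i, ∑ j, P i j * x i * v j) ≤
      s ^ 2 * (tr2 T P + ∑ i, ∑ j, x i * x j * P i j) +
        tr2 P (N * G * N + Matrix.of fun i j => v i * v j) := by
  have h1 : 0 ≤ tr2 P ((s • T - N) * G * (s • T - N)ᴴ) :=
    tr2_nonneg hP (hG.mul_mul_conjTranspose_same _)
  have e1 : (s • T - N)ᴴ = s • T - N := by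
    rw [conjTranspose_sub, conjTranspose_smul]
    simp [conjTranspose_eq_transpose_of_trivial, hT, hN]
  have e2 : (s • T - N) * G * (s • T - N) = s ^ 2 • T - (2 * s) • N + N * G * N := by
    have a1 : T * G * T = T := by rw [hTG, one_mul]
    have a2 : T * G * N = N := by rw [hTG, one_mul]
    have a3 : N * G * T = N := by rw [mul_assoc, hGT, mul_one]
    have : (s • T - N) * G * (s • T - N) =
        (s * s) • (T * G * T) - s • (T * G * N) - s • (N * G * T) + N * G * N := by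
      simp only [sub_mul, mul_sub, Matrix.smul_mul, Matrix.mul_smul, smul_smul]
      abel
    rw [this, a1, a2, a3, mul_smul 2 s, two_smul, pow_two]
    abel
  rw [e1, e2, tr2_add, tr2_sub, tr2_smul, tr2_smul] at h1
  have h2 : 0 ≤ tr2 P (Matrix.vecMulVec (fun i => s * x i - v i)
      (star (fun i => s * x i - v i))) :=
    tr2_nonneg hP (posSemidef_vecMulVec_self_star _)
  have hsym : ∀ i j, P i j = P j i := fun i j => by
    have := congrFun (congrFun hP.isHermitian i) j
    simpa [conjTranspose_apply] using this.symm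
  have h3 : ∑ i, ∑ j, P i j * (v i * x j) = ∑ i, ∑ j, P i j * (x i * v j) := by
    rw [Finset.sum_comm]
    refine Finset.sum_congr rfl fun i _ => Finset.sum_congr rfl fun j _ => ?_
    rw [hsym j i]; ring
  have h4 : tr2 P (Matrix.vecMulVec (fun i => s * x i - v i)
      (star (fun i => s * x i - v i))) =
      s ^ 2 * ∑ i, ∑ j, x i * x j * P i j - s * ∑ i, ∑ j, P i j * (x i * v j)
        - s * ∑ i, ∑ j, P i j * (v i * x j) + tr2 P (Matrix.of fun i j => v i * v j) := by
    simp only [tr2, Finset.mul_sum, ← Finset.sum_sub_distrib, ← Finset.sum_add_distrib]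
    refine Finset.sum_congr rfl fun i _ => Finset.sum_congr rfl fun j _ => ?_
    simp [Matrix.vecMulVec_apply]
    ring
  rw [h4, h3] at h2
  have h5 : ∑ i, ∑ j, P i j * x i * v j = ∑ i, ∑ j, P i j * (x i * v j) :=
    Finset.sum_congr rfl fun i _ => Finset.sum_congr rfl fun j _ => by ring
  rw [tr2_add, h5, tr2_comm T P]
  nlinarith [h1, h2]

/-! ### Partial derivatives -/

lemma contDiff_pd {k m : WithTop ℕ∞} {f : E n → ℝ} (hf : ContDiff ℝ m f) (h : k + 1 ≤ m)
    (i : Fin n) : ContDiff ℝ k (pd i f) :=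
  (hf.fderiv_right h).clm_apply contDiff_const

lemma fderiv_eq_sum (f : E n → ℝ) (x v : E n) :
    fderiv ℝ f x v = ∑ i, v i * pd i f x := by
  conv_lhs => rw [← (EuclideanSpace.basisFun (Fin n) ℝ).sum_repr v]
  simp [pd, map_sum]

lemma pd_symm {f : E n → ℝ} (hf : ContDiff ℝ 2 f) (i j : Fin n) (x : E n) :
    pd i (pd j f) x = pd j (pd i f) x := by
  have hd : DifferentiableAt ℝ (fderiv ℝ f) x :=
    ((hf.fderiv_right (m := 1) le_rfl).differentiable one_ne_zero) x
  have key : ∀ a b : Fin n, pd a (pd b f) x =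
      fderiv ℝ (fderiv ℝ f) x (EuclideanSpace.single a 1) (EuclideanSpace.single b 1) := by
    intro a b
    have : fderiv ℝ (fun y => (fderiv ℝ f y) (EuclideanSpace.single b (1 : ℝ))) x =
        (fderiv ℝ (fderiv ℝ f) x).flip (EuclideanSpace.single b (1 : ℝ)) := by
      have := (hd.hasFDerivAt.clm_apply
        (hasFDerivAt_const (EuclideanSpace.single b (1 : ℝ)) x)).fderiv
      simpa using this
    change fderiv ℝ (fun y => (fderiv ℝ f y) (EuclideanSpace.single b (1 : ℝ))) x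
      (EuclideanSpace.single a (1 : ℝ)) = _
    rw [this]
    rfl
  rw [key, key]
  exact (hf.contDiffAt.isSymmSndFDerivAt (by simp)).eq _ _

lemma hess_symm {f : E n → ℝ} (hf : ContDiff ℝ 2 f) (x : E n) : (hess f x)ᵀ = hess f x := by
  ext i j
  simp only [hess, transpose_apply, of_apply]
  exact pd_symm hf j i x

lemma psd_of_LB {M : Mt n} (hs : Mᵀ = M) (h : LB 0 M) : M.PosSemidef := by
  refine posSemidef_iff_dotProduct_mulVec.2 ⟨?_, fun x => ?_⟩
  · simpa [IsHermitian, conjTranspose_eq_transpose_of_trivial] using hs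
  · have := h x
    simp only [zero_mul] at this
    simpa [dotProduct, mulVec, Finset.mul_sum, mul_assoc] using this

lemma pd_sum {ι : Type*} (s : Finset ι) {f : ι → E n → ℝ} (hf : ∀ a, Differentiable ℝ (f a))
    (i : Fin n) : pd i (fun x => ∑ a ∈ s, f a x) = fun x => ∑ a ∈ s, pd i (f a) x := by
  funext x
  simp only [pd]
  rw [fderiv_fun_sum fun a _ => (hf a) x]
  simp

lemma hess_sum {ι : Type*} (s : Finset ι) {f : ι → E n → ℝ} (hf : ∀ a, ContDiff ℝ 2 (f a))
    (x : E n) : hess (fun x => ∑ a ∈ s, f a x) x = ∑ a ∈ s, hess (f a) x := by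
  ext i j
  simp only [hess, of_apply, Matrix.sum_apply]
  rw [pd_sum s fun a => (hf a).differentiable (by norm_num), pd_sum s fun a =>
    ((contDiff_pd (k := 1) (hf a) (by norm_num) j).differentiable (by norm_num))]

lemma continuous_pd {m : WithTop ℕ∞} {f : E n → ℝ} (hf : ContDiff ℝ m f) (h : 1 ≤ m)
    (i : Fin n) : Continuous (pd i f) :=
  (contDiff_pd (k := 0) hf (by simpa using h) i).continuous

/-- A `C^1` function with bounded partial derivatives has linear growth. -/
lemma growth_of_pd {f : E n → ℝ} (hf : ContDiff ℝ 1 f) {M : ℝ} (hM : 0 ≤ M)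
    (h : ∀ i x, |pd i f x| ≤ M) (x : E n) : |f x| ≤ |f 0| + n * M * ‖x‖ := by
  have hb : ∀ y ∈ (Set.univ : Set (E n)), ‖fderiv ℝ f y‖ ≤ n * M := by
    intro y _
    refine ContinuousLinearMap.opNorm_le_bound _ (by positivity) fun v => ?_
    rw [fderiv_eq_sum, Real.norm_eq_abs]
    calc |∑ i, v i * pd i f y| ≤ ∑ i, |v i * pd i f y| := Finset.abs_sum_le_sum_abs _ _
      _ ≤ ∑ _i : Fin n, ‖v‖ * M := by
          refine Finset.sum_le_sum fun i _ => ?_
          rw [abs_mul]
          exact mul_le_mul (by simpa using PiLp.norm_apply_le v i) (h i y) (abs_nonneg _)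
            (norm_nonneg _)
      _ = n * M * ‖v‖ := by simp; ring
  have := (convex_univ (𝕜 := ℝ) (E := E n)).norm_image_sub_le_of_norm_fderiv_le
    (fun y _ => (hf.differentiable (by norm_num)) y) hb (Set.mem_univ 0) (Set.mem_univ x)
  rw [sub_zero, Real.norm_eq_abs] at this
  have h2 : |f x| ≤ |f 0| + |f x - f 0| := by
    have := abs_add_le (f 0) (f x - f 0)
    simpa using this
  linarith

/-! ### Functions of polynomial growth -/

/-- Continuous of polynomial growth. -/
def PG (f : E n → ℝ) : Prop :=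
  Continuous f ∧ ∃ (C : ℝ) (k : ℕ), 0 ≤ C ∧ ∀ x, |f x| ≤ C * (1 + ‖x‖) ^ k

lemma PG.add {f g : E n → ℝ} (hf : PG f) (hg : PG g) : PG fun x => f x + g x := by
  obtain ⟨hc, C, k, hC, h⟩ := hf
  obtain ⟨hc', C', k', hC', h'⟩ := hg
  refine ⟨hc.add hc', C + C', k + k', by positivity, fun x => ?_⟩
  have h1 : (1 : ℝ) ≤ 1 + ‖x‖ := by linarith [norm_nonneg x]
  have a1 : (1 + ‖x‖) ^ k ≤ (1 + ‖x‖) ^ (k + k') := pow_le_pow_right₀ h1 (by omega)
  have a2 : (1 + ‖x‖) ^ k' ≤ (1 + ‖x‖) ^ (k + k') := pow_le_pow_right₀ h1 (by omega)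
  calc |f x + g x| ≤ |f x| + |g x| := abs_add_le _ _
    _ ≤ C * (1 + ‖x‖) ^ k + C' * (1 + ‖x‖) ^ k' := add_le_add (h x) (h' x)
    _ ≤ C * (1 + ‖x‖) ^ (k + k') + C' * (1 + ‖x‖) ^ (k + k') := by gcongr
    _ = (C + C') * (1 + ‖x‖) ^ (k + k') := by ring

lemma PG.mul {f g : E n → ℝ} (hf : PG f) (hg : PG g) : PG fun x => f x * g x := by
  obtain ⟨hc, C, k, hC, h⟩ := hf
  obtain ⟨hc', C', k', hC', h'⟩ := hg
  refine ⟨hc.mul hc', C * C', k + k', by positivity, fun x => ?_⟩
  rw [abs_mul]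
  calc |f x| * |g x| ≤ (C * (1 + ‖x‖) ^ k) * (C' * (1 + ‖x‖) ^ k') :=
        mul_le_mul (h x) (h' x) (abs_nonneg _) (by positivity)
    _ = C * C' * (1 + ‖x‖) ^ (k + k') := by rw [pow_add]; ring

lemma PG.const (c : ℝ) : PG fun _ : E n => c :=
  ⟨continuous_const, |c|, 0, abs_nonneg _, fun x => by simp⟩

lemma PG.sum {ι : Type*} (s : Finset ι) {f : ι → E n → ℝ} (hf : ∀ a ∈ s, PG (f a)) :
    PG fun x => ∑ a ∈ s, f a x := by
  classical
  induction s using Finset.induction_on with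
  | empty => simpa using PG.const (n := n) 0
  | insert a s ha ih =>
    have h1 := (hf a (Finset.mem_insert_self _ _)).add
      (ih fun b hb => hf b (Finset.mem_insert_of_mem hb))
    have h2 : (fun x => ∑ b ∈ insert a s, f b x) = fun x => f a x + ∑ b ∈ s, f b x := by
      funext x; rw [Finset.sum_insert ha]
    rw [h2]; exact h1

lemma PG.coord (i : Fin n) : PG fun x : E n => x i := by
  refine ⟨by fun_prop, 1, 1, zero_le_one, fun x => ?_⟩
  have := PiLp.norm_apply_le x i
  rw [Real.norm_eq_abs] at this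
  simp only [pow_one, one_mul]
  linarith

lemma PG.of_compact {f : E n → ℝ} (hf : Continuous f) (hc : HasCompactSupport f) : PG f := by
  obtain ⟨C, hC⟩ := hc.exists_bound_of_continuous hf
  refine ⟨hf, C, 0, (norm_nonneg _).trans (hC 0), fun x => by simpa using hC x⟩

lemma PG.sub {f g : E n → ℝ} (hf : PG f) (hg : PG g) : PG fun x => f x - g x := by
  have := hf.add ((PG.const (-1)).mul hg)
  simpa [sub_eq_add_neg] using this

lemma exp_bound (m : ℕ) (t : ℝ) (ht : 0 ≤ t) :
    (1 + t) ^ m * Real.exp (-(t ^ 2 / 2)) ≤ m.factorial * Real.exp (3 / 2) := by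
  have h1 : (1 + t) ^ m / m.factorial ≤ Real.exp (1 + t) :=
    Real.pow_div_factorial_le_exp _ (by linarith) m
  have h2 : (1 + t) ^ m ≤ m.factorial * Real.exp (1 + t) := by
    rw [div_le_iff₀ (by positivity)] at h1
    linarith
  have h3 : Real.exp (-(t ^ 2 / 2)) ≤ Real.exp (1 / 2 - t) :=
    Real.exp_le_exp.2 (by nlinarith [sq_nonneg (t - 1)])
  calc (1 + t) ^ m * Real.exp (-(t ^ 2 / 2))
      ≤ (m.factorial * Real.exp (1 + t)) * Real.exp (1 / 2 - t) :=
        mul_le_mul h2 h3 (Real.exp_nonneg _) (by positivity)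
    _ = m.factorial * Real.exp (3 / 2) := by
        rw [mul_assoc, ← Real.exp_add]; ring_nf

/-- Integrability of functions of polynomial growth. -/
lemma PG.integrable {f F : E n → ℝ} (hf : PG f) (hF : Continuous F) {K : ℝ}
    (hK : ∀ x, |F x| ≤ K) : Integrable fun x => f x * Real.exp (-(qn x + F x)) := by
  obtain ⟨hc, C, k, hC, h⟩ := hf
  set m := k + (n + 1) with hm
  have hint : Integrable fun x : E n =>
      (C * (m.factorial * Real.exp (3 / 2)) * Real.exp K) * (1 + ‖x‖) ^ (-((n : ℝ) + 1)) := by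
    refine (integrable_one_add_norm ?_).const_mul _
    simp
  have hcont : Continuous fun x : E n => f x * Real.exp (-(qn x + F x)) := by
    unfold qn; fun_prop
  refine hint.mono' hcont.aestronglyMeasurable (Filter.Eventually.of_forall fun x => ?_)
  have hx : 0 ≤ ‖x‖ := norm_nonneg x
  have h1 : 0 < 1 + ‖x‖ := by linarith
  rw [Real.norm_eq_abs, abs_mul, Real.abs_exp]
  have e1 : Real.exp (-(qn x + F x)) ≤ Real.exp (-(‖x‖ ^ 2 / 2)) * Real.exp K := by
    rw [← Real.exp_add]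
    refine Real.exp_le_exp.2 ?_
    have := (abs_le.1 (hK x)).1
    simp only [qn]; linarith
  have e2 := exp_bound m ‖x‖ hx
  have e3 : (1 + ‖x‖) ^ (-((n : ℝ) + 1)) = ((1 + ‖x‖) ^ (n + 1))⁻¹ := by
    rw [Real.rpow_neg h1.le]
    congr 1
    have := Real.rpow_natCast (1 + ‖x‖) (n + 1)
    push_cast at this
    exact this
  rw [e3]
  have e4 : (1 + ‖x‖) ^ k * Real.exp (-(‖x‖ ^ 2 / 2)) ≤
      m.factorial * Real.exp (3 / 2) * ((1 + ‖x‖) ^ (n + 1))⁻¹ := by
    rw [← div_eq_mul_inv, le_div_iff₀ (by positivity)]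
    calc (1 + ‖x‖) ^ k * Real.exp (-(‖x‖ ^ 2 / 2)) * (1 + ‖x‖) ^ (n + 1)
        = (1 + ‖x‖) ^ m * Real.exp (-(‖x‖ ^ 2 / 2)) := by rw [hm, pow_add]; ring
      _ ≤ _ := e2
  calc |f x| * Real.exp (-(qn x + F x))
      ≤ (C * (1 + ‖x‖) ^ k) * (Real.exp (-(‖x‖ ^ 2 / 2)) * Real.exp K) :=
        mul_le_mul (h x) e1 (Real.exp_nonneg _) (by positivity)
    _ = C * ((1 + ‖x‖) ^ k * Real.exp (-(‖x‖ ^ 2 / 2))) * Real.exp K := by ring
    _ ≤ C * (m.factorial * Real.exp (3 / 2) * ((1 + ‖x‖) ^ (n + 1))⁻¹) * Real.exp K := by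
        gcongr
    _ = _ := by ring

/-! ### Functions vanishing near a point -/

open Filter Topology

lemma ev_pd {f : E n → ℝ} {x : E n} (h : f =ᶠ[𝓝 x] fun _ => 0) (i : Fin n) :
    pd i f =ᶠ[𝓝 x] fun _ => 0 := by
  have h1 := h.fderiv (𝕜 := ℝ)
  filter_upwards [h1] with y hy
  simp [pd, hy]

lemma ev_AK {f : E n → ℝ} {x : E n} (h : f =ᶠ[𝓝 x] fun _ => 0) (T : E n → Mt n) (k : ℝ) :
    AK T k f =ᶠ[𝓝 x] fun _ => 0 := by
  have h1 := h.fderiv (𝕜 := ℝ)
  have h2 : ∀ i j, pd i (pd j f) =ᶠ[𝓝 x] fun _ => 0 := fun i j => ev_pd (ev_pd h j) i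
  have h3 : ∀ᶠ y in 𝓝 x, ∀ i j, pd i (pd j f) y = 0 :=
    eventually_all.2 fun i => eventually_all.2 fun j => h2 i j
  filter_upwards [h, h1, h3] with y hy hy1 hy3
  have e1 : hess f y = 0 := by ext i j; simp [hess, hy3]
  have e2 : eul f y = 0 := by simp [eul, hy1]
  simp [AK, LL, e1, e2, hy, tr2]

lemma ev_of_not_mem {h : E n → ℝ} {x : E n} (hx : x ∉ tsupport h) : h =ᶠ[𝓝 x] fun _ => 0 :=
  notMem_tsupport_iff_eventuallyEq.1 hx

lemma hess_zero {f : E n → ℝ} {x : E n} (h : f =ᶠ[𝓝 x] fun _ => 0) : hess f x = 0 := by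
  ext i j
  have := (ev_pd (ev_pd h j) i).eq_of_nhds
  simpa [hess] using this

lemma gf_zero {V h : E n → ℝ} {x : E n} (hx : x ∉ tsupport h) : gf V h x = 0 :=
  (ev_AK (ev_AK (ev_of_not_mem hx) _ _) _ _).eq_of_nhds

lemma vf_zero {V h : E n → ℝ} {x : E n} (hx : x ∉ tsupport h) (i : Fin n) :
    vf V h i x = 0 := by
  have : ∀ j, pd j (AK (tau V) 1 h) x = 0 := fun j =>
    (ev_pd (ev_AK (ev_of_not_mem hx) _ _) j).eq_of_nhds
  simp [vf, this]

lemma Nf_zero {V h : E n → ℝ} {x : E n} (hx : x ∉ tsupport h) : Nf V h x = 0 := by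
  simp [Nf, hess_zero (ev_of_not_mem hx)]

lemma Mf_zero {V h : E n → ℝ} {x : E n} (hx : x ∉ tsupport h) : Mf V h x = 0 := by
  ext i j
  simp [Mf, Nf_zero hx, vf_zero hx]

/-! ### Regularity -/

lemma contDiff_det {m : WithTop ℕ∞} {k : ℕ} {A : E n → Matrix (Fin k) (Fin k) ℝ}
    (h : ∀ i j, ContDiff ℝ m fun x => A x i j) : ContDiff ℝ m fun x => (A x).det := by
  simp only [det_apply]
  refine ContDiff.sum fun s _ => ?_
  refine ContDiff.const_smul _ ?_
  exact contDiff_prod fun i _ => h _ _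

lemma contDiff_inv {m : WithTop ℕ∞} {A : E n → Mt n}
    (h : ∀ i j, ContDiff ℝ m fun x => A x i j) (hd : ∀ x, (A x).det ≠ 0) (i j : Fin n) :
    ContDiff ℝ m fun x => (A x)⁻¹ i j := by
  have e : (fun x => (A x)⁻¹ i j) = fun x => ((A x).det)⁻¹ * (A x).adjugate i j := by
    funext x
    rw [Matrix.inv_def, Ring.inverse_eq_inv']
    rfl
  rw [e]
  refine (ContDiff.inv (contDiff_det h) hd).mul ?_
  simp only [adjugate_apply]
  refine contDiff_det fun a b => ?_
  simp only [updateRow_apply]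
  split_ifs
  · exact contDiff_const
  · exact h a b

lemma posDef_of_LB {M : Mt n} (hs : Mᵀ = M) {a : ℝ} (ha : 0 < a) (h : LB a M) : M.PosDef := by
  refine posDef_iff_dotProduct_mulVec.2 ⟨?_, fun x hx => ?_⟩
  · simpa [IsHermitian, conjTranspose_eq_transpose_of_trivial] using hs
  · have h1 := h x
    have h2 : 0 < ∑ i, x i ^ 2 := by
      obtain ⟨i, hi⟩ := Function.ne_iff.1 hx
      refine Finset.sum_pos' (fun j _ => sq_nonneg _) ⟨i, Finset.mem_univ _, ?_⟩
      have : x i ≠ 0 := hi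
      positivity
    have h3 : 0 < ∑ i, ∑ j, x i * M i j * x j := lt_of_lt_of_le (by positivity) h1
    simpa [dotProduct, mulVec, Finset.mul_sum, mul_assoc] using h3

lemma sol_contDiff {F V : E n → ℝ} (hS : Sol F V) : ContDiff ℝ 5 V := by
  obtain ⟨M, h, -⟩ := hS.reg
  exact_mod_cast h

lemma sol_posDef {F V : E n → ℝ} (hS : Sol F V) (x : E n) : (hess V x).PosDef := by
  obtain ⟨a, ha, h⟩ := hS.pos
  exact posDef_of_LB (hess_symm ((sol_contDiff hS).of_le (by norm_num)) x) ha (h x)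

lemma contDiff_hess {f : E n → ℝ} {k m : WithTop ℕ∞} (hf : ContDiff ℝ m f) (h : k + 2 ≤ m)
    (i j : Fin n) : ContDiff ℝ k fun x => hess f x i j := by
  have h2 : k + 1 + 1 ≤ m := by rwa [add_assoc, one_add_one_eq_two]
  have h1 : ContDiff ℝ (k + 1) (pd j f) := contDiff_pd hf h2 j
  exact contDiff_pd h1 le_rfl i

lemma contDiff_eul {f : E n → ℝ} {k m : WithTop ℕ∞} (hf : ContDiff ℝ m f) (h : k + 1 ≤ m) :
    ContDiff ℝ k (eul f) :=
  (hf.fderiv_right h).clm_apply contDiff_id

lemma contDiff_tau {F V : E n → ℝ} (hS : Sol F V) (i j : Fin n) :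
    ContDiff ℝ 3 fun x => tau V x i j :=
  contDiff_inv (fun a b => contDiff_hess (sol_contDiff hS) (by norm_num) a b)
    (fun x => (sol_posDef hS x).det_pos.ne') i j

lemma contDiff_AK {T : E n → Mt n} {f : E n → ℝ} {κ : ℝ} {k m : WithTop ℕ∞}
    (hT : ∀ i j, ContDiff ℝ k fun x => T x i j) (hf : ContDiff ℝ m f) (h : k + 2 ≤ m) :
    ContDiff ℝ k (AK T κ f) := by
  have h1 : k + 1 ≤ m := le_trans (by gcongr; norm_num) h
  have h0 : k ≤ m := le_trans le_self_add h
  unfold AK LL tr2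
  refine ((ContDiff.sub ?_ (contDiff_eul hf h1)).neg).sub (contDiff_const.mul (hf.of_le h0))
  exact ContDiff.sum fun i _ => ContDiff.sum fun j _ => (hT i j).mul (contDiff_hess hf h i j)

lemma contDiff_f {F V h : E n → ℝ} (hS : Sol F V) (hh : ContDiff ℝ 5 h) :
    ContDiff ℝ 3 (AK (tau V) 1 h) :=
  contDiff_AK (fun i j => contDiff_tau hS i j) hh (by norm_num)

lemma continuous_gf {F V h : E n → ℝ} (hS : Sol F V) (hh : ContDiff ℝ 5 h) :
    Continuous (gf V h) :=
  (contDiff_AK (k := 1) (fun i j => (contDiff_tau hS i j).of_le (by norm_num))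
    (contDiff_f hS hh) (by norm_num)).continuous

lemma continuous_vf {F V h : E n → ℝ} (hS : Sol F V) (hh : ContDiff ℝ 5 h) (i : Fin n) :
    Continuous (vf V h i) := by
  unfold vf
  exact continuous_finsetSum _ fun j _ =>
    (contDiff_tau hS i j).continuous.mul (continuous_pd (contDiff_f hS hh) (by norm_num) j)

lemma continuous_mul_apply {A B : E n → Mt n} (hA : ∀ i j, Continuous fun x => A x i j)
    (hB : ∀ i j, Continuous fun x => B x i j) (i j : Fin n) :
    Continuous fun x => (A x * B x) i j := by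
  simp only [Matrix.mul_apply]
  exact continuous_finsetSum _ fun k _ => (hA i k).mul (hB k j)

lemma continuous_hess {f : E n → ℝ} (hf : ContDiff ℝ 2 f) (i j : Fin n) :
    Continuous fun x => hess f x i j :=
  (contDiff_hess (k := 0) hf (by norm_num) i j).continuous

lemma continuous_Nf {F V h : E n → ℝ} (hS : Sol F V) (hh : ContDiff ℝ 5 h) (i j : Fin n) :
    Continuous fun x => Nf V h x i j := by
  unfold Nf
  exact continuous_mul_apply (continuous_mul_apply (fun a b => (contDiff_tau hS a b).continuous)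
    (continuous_hess (hh.of_le (by norm_num)))) (fun a b => (contDiff_tau hS a b).continuous) i j

lemma continuous_Mf {F V h : E n → ℝ} (hS : Sol F V) (hh : ContDiff ℝ 5 h) (i j : Fin n) :
    Continuous fun x => Mf V h x i j := by
  have h1 : (fun x => Mf V h x i j) = fun x => (Nf V h x * hess V x * Nf V h x) i j +
      vf V h i x * vf V h j x := by
    funext x; simp [Mf]
  rw [h1]
  refine Continuous.add ?_ ((continuous_vf hS hh i).mul (continuous_vf hS hh j))
  exact continuous_mul_apply (continuous_mul_apply (continuous_Nf hS hh)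
    (continuous_hess ((sol_contDiff hS).of_le (by norm_num)))) (continuous_Nf hS hh) i j

lemma continuous_tr2 {A B : E n → Mt n} (hA : ∀ i j, Continuous fun x => A x i j)
    (hB : ∀ i j, Continuous fun x => B x i j) : Continuous fun x => tr2 (A x) (B x) := by
  unfold tr2
  exact continuous_finsetSum _ fun i _ => continuous_finsetSum _ fun j _ =>
    (hA i j).mul (hB i j)

lemma PG_hess {f : E n → ℝ} (hf : ContDiff ℝ 2 f) {M : ℝ} (hM : ∀ x i j, |pd i (pd j f) x| ≤ M)
    (i j : Fin n) : PG fun x => hess f x i j := by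
  refine ⟨continuous_hess hf i j, M, 0, (abs_nonneg _).trans (hM 0 i j), fun x => ?_⟩
  simpa [hess] using hM x i j

lemma PG_eul {f : E n → ℝ} (hf : ContDiff ℝ 2 f) {M : ℝ}
    (hM : ∀ x i j, |pd i (pd j f) x| ≤ M) : PG (eul f) := by
  have h1 : eul f = fun x => ∑ i, x i * pd i f x := by
    funext x; exact fderiv_eq_sum f x x
  rw [h1]
  refine PG.sum _ fun i _ => (PG.coord i).mul ?_
  refine ⟨continuous_pd hf (by norm_num) i, |pd i f 0| + n * |M|, 1, by positivity,
    fun x => ?_⟩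
  have := growth_of_pd (contDiff_pd (k := 1) hf (by norm_num) i) (abs_nonneg M)
    (fun j y => (hM y j i).trans (le_abs_self M)) x
  have h2 : 0 ≤ ‖x‖ := norm_nonneg x
  have h3 : 0 ≤ |pd i f 0| * ‖x‖ := by positivity
  have h4 : 0 ≤ (n : ℝ) * |M| := by positivity
  rw [pow_one]
  nlinarith

/-! ### The variance inequality -/

/-- The weight. -/
noncomputable def wt (F : E n → ℝ) (x : E n) : ℝ := Real.exp (-(qn x + F x))

lemma hess_WW {F V : E n → ℝ} (hS : Sol F V) {N : ℕ} {Ψ : Fin N → E n → ℝ}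
    (hΨ : ∀ a, ContDiff ℝ 2 (Ψ a)) (hsum : ∀ x, ∑ a, Ψ a x = qn x + F x) (x : E n) :
    hess (WW V) x = ∑ a, hess (Ψ a) x := by
  have h1 : WW V = fun x => ∑ a, Ψ a x := by
    funext y; rw [hS.eq y, hsum y]
  rw [h1, hess_sum _ hΨ]

/-- The functions `tr (Ψ'' N) + ⟨Ψ'' x, v⟩`. -/
noncomputable def Af (V h Ψ : E n → ℝ) (x : E n) : ℝ :=
  tr2 (hess Ψ x) (Nf V h x) + ∑ i, ∑ j, hess Ψ x i j * x i * vf V h j x

lemma PG_Af {F V h Ψ : E n → ℝ} (hS : Sol F V) (hh : ContDiff ℝ 5 h) (hc : HasCompactSupport h)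
    (hΨ : ContDiff ℝ 2 Ψ) : PG (Af V h Ψ) := by
  refine PG.of_compact ?_ (HasCompactSupport.intro hc.isCompact fun x hx => ?_)
  · unfold Af
    refine (continuous_tr2 (continuous_hess hΨ) (continuous_Nf hS hh)).add ?_
    exact continuous_finsetSum _ fun i _ => continuous_finsetSum _ fun j _ =>
      ((continuous_hess hΨ i j).mul (by fun_prop)).mul (continuous_vf hS hh j)
  · simp [Af, Nf_zero hx, vf_zero hx, tr2]

lemma PG_gf {F V h : E n → ℝ} (hS : Sol F V) (hh : ContDiff ℝ 5 h) (hc : HasCompactSupport h) :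
    PG (gf V h) :=
  PG.of_compact (continuous_gf hS hh) (HasCompactSupport.intro hc.isCompact fun _ hx =>
    gf_zero hx)

/-- Second order terms. -/
noncomputable def Xf (Ψ : E n → ℝ) (x : E n) : ℝ := ∑ i, ∑ j, x i * x j * hess Ψ x i j

lemma PG_Xf {Ψ : E n → ℝ} (hf : ContDiff ℝ 2 Ψ) {M : ℝ}
    (hM : ∀ x i j, |pd i (pd j Ψ) x| ≤ M) : PG (Xf Ψ) :=
  PG.sum _ fun i _ => PG.sum _ fun j _ => ((PG.coord i).mul (PG.coord j)).mul (PG_hess hf hM i j)

/-- The main inequality for one compactly supported `h`. -/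
lemma main_ineq (hK : ST_K) (hST : ST_STEIN) (hPA : ST_PAIR) {F V h : E n → ℝ}
    (hF : ∃ c K R0, FOK c K R0 F) (hS : Sol F V) (hh : ContDiff ℝ 5 h)
    (hc : HasCompactSupport h) {N : ℕ} {Ψ : Fin N → E n → ℝ} {M : ℝ}
    (hΨ : ∀ a, ContDiff ℝ 2 (Ψ a)) (hpos : ∀ a x, LB 0 (hess (Ψ a) x))
    (hM : ∀ a x i j, |pd i (pd j (Ψ a)) x| ≤ M) (hsum : ∀ x, ∑ a, Ψ a x = qn x + F x)
    (s : Fin N → ℝ) :
    2 * ∫ x, (gf V h x * ∑ a, s a * eul (Ψ a) x) * wt F x ≤
      (∫ x, (∑ a, s a ^ 2 * (eul (Ψ a) x + Xf (Ψ a) x)) * wt F x) +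
        ∫ x, gf V h x ^ 2 * wt F x := by
  obtain ⟨c, K, R0, hF0⟩ := id hF
  have hFc : Continuous F := hF0.bd.1.continuous
  have hFb : ∀ x, |F x| ≤ K := fun x => (hF0.bd.2 [] (by simp)).1 x
  have hW : ∀ x, WW V x = qn x + F x := hS.eq
  have int : ∀ f : E n → ℝ, PG f → Integrable fun x => f x * wt F x := fun f hf =>
    hf.integrable hFc hFb
  have hA : ∀ a, ∫ x, gf V h x * eul (Ψ a) x * wt F x = ∫ x, Af V h (Ψ a) x * wt F x := by
    intro a
    have := hPA n F V h (Ψ a) hF hS hh hc (hΨ a)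
    simp only [hW] at this
    exact this
  have hB : ∀ a, Integrable (fun x => eul (Ψ a) x * wt F x) ∧
      Integrable (fun x => tr2 (tau V x) (hess (Ψ a) x) * wt F x) ∧
      ∫ x, eul (Ψ a) x * wt F x = ∫ x, tr2 (tau V x) (hess (Ψ a) x) * wt F x := by
    intro a
    have := hST n F V (Ψ a) M hF hS (hΨ a) (hM a)
    simp only [hW] at this
    exact this
  have hC : ∫ x, tr2 (∑ a, hess (Ψ a) x) (Mf V h x) * wt F x ≤ ∫ x, gf V h x ^ 2 * wt F x := by
    have := hK n F V h hF hS hh hc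
    simp only [hW, hess_WW hS hΨ hsum] at this
    exact this
  have gE : ∀ a, Integrable fun x => gf V h x * eul (Ψ a) x * wt F x := fun a =>
    int _ ((PG_gf hS hh hc).mul (PG_eul (hΨ a) (hM a)))
  have gA : ∀ a, Integrable fun x => Af V h (Ψ a) x * wt F x := fun a =>
    int _ (PG_Af hS hh hc (hΨ a))
  have gX : ∀ a, Integrable fun x => Xf (Ψ a) x * wt F x := fun a =>
    int _ (PG_Xf (hΨ a) (hM a))
  have gM : Integrable fun x => tr2 (∑ a, hess (Ψ a) x) (Mf V h x) * wt F x := by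
    refine int _ (PG.of_compact ?_ (HasCompactSupport.intro hc.isCompact fun x hx => ?_))
    · refine continuous_tr2 (fun i j => ?_) (continuous_Mf hS hh)
      simp only [Matrix.sum_apply]
      exact continuous_finsetSum _ fun a _ => continuous_hess (hΨ a) i j
    · simp [Mf_zero hx, tr2]
  -- left side
  have L1 : ∫ x, (gf V h x * ∑ a, s a * eul (Ψ a) x) * wt F x =
      ∑ a, s a * ∫ x, Af V h (Ψ a) x * wt F x := by
    have e : ∀ x, (gf V h x * ∑ a, s a * eul (Ψ a) x) * wt F x =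
        ∑ a, s a * (gf V h x * eul (Ψ a) x * wt F x) := by
      intro x
      rw [Finset.mul_sum, Finset.sum_mul]
      exact Finset.sum_congr rfl fun a _ => by ring
    simp only [e]
    rw [integral_finsetSum _ fun a _ => (gE a).const_mul _]
    exact Finset.sum_congr rfl fun a _ => by rw [integral_const_mul, hA]
  have R1 : ∫ x, (∑ a, s a ^ 2 * (eul (Ψ a) x + Xf (Ψ a) x)) * wt F x =
      ∑ a, s a ^ 2 * ((∫ x, tr2 (tau V x) (hess (Ψ a) x) * wt F x) +
        ∫ x, Xf (Ψ a) x * wt F x) := by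
    have e : ∀ x, (∑ a, s a ^ 2 * (eul (Ψ a) x + Xf (Ψ a) x)) * wt F x =
        ∑ a, s a ^ 2 * (eul (Ψ a) x * wt F x + Xf (Ψ a) x * wt F x) := by
      intro x
      rw [Finset.sum_mul]
      exact Finset.sum_congr rfl fun a _ => by ring
    have hs : ∀ a, Integrable fun x => eul (Ψ a) x * wt F x + Xf (Ψ a) x * wt F x := fun a =>
      (hB a).1.add (gX a)
    simp only [e]
    rw [integral_finsetSum _ fun a _ => (hs a).const_mul _]
    refine Finset.sum_congr rfl fun a _ => ?_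
    rw [integral_const_mul, integral_add (hB a).1 (gX a), (hB a).2.2]
  -- pointwise inequality
  have pt : ∀ x, ∑ a, (2 * s a) * (Af V h (Ψ a) x * wt F x) ≤
      (∑ a, s a ^ 2 * (tr2 (tau V x) (hess (Ψ a) x) * wt F x + Xf (Ψ a) x * wt F x)) +
        tr2 (∑ a, hess (Ψ a) x) (Mf V h x) * wt F x := by
    intro x
    have hG := sol_posDef hS x
    have hdet : IsUnit (hess V x).det := hG.det_pos.ne'.isUnit
    have hGT : hess V x * tau V x = 1 := Matrix.mul_nonsing_inv _ hdet
    have hTG : tau V x * hess V x = 1 := Matrix.nonsing_inv_mul _ hdet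
    have hTs : (tau V x)ᵀ = tau V x := by
      rw [tau, Matrix.transpose_nonsing_inv,
        hess_symm ((sol_contDiff hS).of_le (by norm_num)) x]
    have hNs : (Nf V h x)ᵀ = Nf V h x := by
      rw [Nf, Matrix.transpose_mul, Matrix.transpose_mul, hTs,
        hess_symm (hh.of_le (by norm_num)) x, Matrix.mul_assoc]
    have hw : 0 ≤ wt F x := Real.exp_nonneg _
    rw [tr2_sum_left, Finset.sum_mul, ← Finset.sum_add_distrib]
    refine Finset.sum_le_sum fun a _ => ?_
    have hP : (hess (Ψ a) x).PosSemidef := psd_of_LB (hess_symm (hΨ a) x) (hpos a x)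
    have := pw (x := fun i => x i) (v := fun i => vf V h i x) (s a) hP hG.posSemidef hGT hTG
      hTs hNs
    calc 2 * s a * (Af V h (Ψ a) x * wt F x) = (2 * s a * Af V h (Ψ a) x) * wt F x := by ring
      _ ≤ (s a ^ 2 * (tr2 (tau V x) (hess (Ψ a) x) + Xf (Ψ a) x) +
          tr2 (hess (Ψ a) x) (Mf V h x)) * wt F x :=
          mul_le_mul_of_nonneg_right this hw
      _ = _ := by ring
  have I1 : Integrable fun x => ∑ a, (2 * s a) * (Af V h (Ψ a) x * wt F x) :=
    integrable_finsetSum _ fun a _ => (gA a).const_mul _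
  have I2 : Integrable fun x =>
      ∑ a, s a ^ 2 * (tr2 (tau V x) (hess (Ψ a) x) * wt F x + Xf (Ψ a) x * wt F x) :=
    integrable_finsetSum _ fun a _ => ((hB a).2.1.add (gX a)).const_mul _
  have key := integral_mono I1 (I2.add gM) pt
  have K1 : ∫ x, ∑ a, (2 * s a) * (Af V h (Ψ a) x * wt F x) =
      2 * ∑ a, s a * ∫ x, Af V h (Ψ a) x * wt F x := by
    rw [integral_finsetSum _ fun a _ => (gA a).const_mul _, Finset.mul_sum]
    exact Finset.sum_congr rfl fun a _ => by rw [integral_const_mul]; ring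
  have K2 : ∫ x, ((∑ a, s a ^ 2 * (tr2 (tau V x) (hess (Ψ a) x) * wt F x +
      Xf (Ψ a) x * wt F x)) + tr2 (∑ a, hess (Ψ a) x) (Mf V h x) * wt F x) =
      (∑ a, s a ^ 2 * ((∫ x, tr2 (tau V x) (hess (Ψ a) x) * wt F x) +
        ∫ x, Xf (Ψ a) x * wt F x)) +
        ∫ x, tr2 (∑ a, hess (Ψ a) x) (Mf V h x) * wt F x := by
    have hs : ∀ a, Integrable fun x => tr2 (tau V x) (hess (Ψ a) x) * wt F x +
        Xf (Ψ a) x * wt F x := fun a => (hB a).2.1.add (gX a)
    rw [integral_add I2 gM, integral_finsetSum _ fun a _ => (hs a).const_mul _]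
    congr 1
    exact Finset.sum_congr rfl fun a _ => by
      rw [integral_const_mul, integral_add (hB a).2.1 (gX a)]
  rw [L1, R1]
  have key' : (∫ x, ∑ a, (2 * s a) * (Af V h (Ψ a) x * wt F x)) ≤
      ∫ x, ((∑ a, s a ^ 2 * (tr2 (tau V x) (hess (Ψ a) x) * wt F x +
      Xf (Ψ a) x * wt F x)) + tr2 (∑ a, hess (Ψ a) x) (Mf V h x) * wt F x) := key
  rw [K1, K2] at key'
  linarith

theorem st_STAR (hEX : ST_EX) (hK : ST_K) (hST : ST_STEIN) (hPA : ST_PAIR) (hDE : ST_DENS) :
    ST_STAR := by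
  intro n F hF N Ψ M hΨ hev hpos hM hsum s
  obtain ⟨c, K, R0, hF0⟩ := id hF
  obtain ⟨V, hS, hL⟩ := hEX n c K R0 F hF0
  have hFc : Continuous F := hF0.bd.1.continuous
  have hFb : ∀ x, |F x| ≤ K := fun x => (hF0.bd.2 [] (by simp)).1 x
  have hW : ∀ x, WW V x = qn x + F x := hS.eq
  have int : ∀ f : E n → ℝ, PG f → Integrable fun x => f x * wt F x := fun f hf =>
    hf.integrable hFc hFb
  set G : E n → ℝ := fun x => ∑ a, s a * eul (Ψ a) x with hGdef
  set D : ℝ := ∫ x, (∑ a, s a ^ 2 * (eul (Ψ a) x + Xf (Ψ a) x)) * wt F x with hD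
  set Z : ℝ := ∫ x, wt F x with hZ
  have PGG : PG G := PG.sum _ fun a _ => (PG.const (s a)).mul (PG_eul (hΨ a) (hM a))
  have iw : Integrable fun x : E n => wt F x := by
    have := int _ (PG.const (n := n) 1)
    simpa using this
  have hZpos : 0 < Z := by
    refine (integral_pos_iff_support_of_nonneg (fun x => Real.exp_nonneg _) iw).2 ?_
    have : Function.support (fun x : E n => wt F x) = Set.univ := by
      ext x; simp [wt, Real.exp_ne_zero]
    change 0 < volume (Function.support fun x : E n => wt F x)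
    rw [this]
    exact Measure.measure_univ_pos.2 (NeZero.ne _)
  set m : ℝ := (∫ x, G x * wt F x) / Z with hm
  have hmZ : ∫ x, G x * wt F x = m * Z := by rw [hm]; field_simp
  set g0 : E n → ℝ := fun x => G x - m with hg0
  have PG0 : PG g0 := PGG.sub (PG.const m)
  have mean0 : ∫ x, g0 x * wt F x = 0 := by
    have e : ∀ x, g0 x * wt F x = G x * wt F x - m * wt F x := fun x => by rw [hg0]; ring
    simp only [e]
    rw [integral_sub (int _ PGG) (iw.const_mul _), integral_const_mul, hmZ]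
    ring
  have ev0 : IsEv g0 := by
    intro x
    have : ∀ a, eul (Ψ a) (-x) = eul (Ψ a) x := by
      intro a
      have hd : DifferentiableAt ℝ (Ψ a) (-x) :=
        ((hΨ a).differentiable (by norm_num)) (-x)
      have hn : HasFDerivAt (fun y : E n => -y) (-ContinuousLinearMap.id ℝ (E n)) x :=
        (hasFDerivAt_id x).neg
      have h1 : HasFDerivAt (fun y => Ψ a (-y))
          ((fderiv ℝ (Ψ a) (-x)).comp (-ContinuousLinearMap.id ℝ (E n))) x :=
        hd.hasFDerivAt.comp x hn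
      have h2 : (fun y => Ψ a (-y)) = Ψ a := funext (hev a)
      rw [h2] at h1
      simp [eul, h1.fderiv]
    simp only [hg0, hGdef, this]
  -- the limit
  have lim : ∀ δ : ℝ, 0 < δ → ∫ x, g0 x ^ 2 * wt F x ≤ D + δ * (m ^ 2 * Z + 1 + δ) := by
    intro δ hδ
    obtain ⟨h, hh, hc, -, hlt⟩ := hDE n F V g0 hF hS hL ev0 PG0.1
      (by obtain ⟨C, k, -, h⟩ := PG0.2; exact ⟨C, k, h⟩)
      (by simp only [hW]; exact mean0) (δ ^ 2) (by positivity)
    simp only [hW] at hlt
    have hlt' : ∫ x, (g0 x - gf V h x) ^ 2 * wt F x < δ ^ 2 := hlt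
    have main := main_ineq hK hST hPA hF hS hh hc hΨ hpos hM hsum s
    have PGg : PG (gf V h) := PG_gf hS hh hc
    have Pd : PG fun x => g0 x - gf V h x := PG0.sub PGg
    have Pd2 : PG fun x => (g0 x - gf V h x) ^ 2 := by
      have := Pd.mul Pd; simpa [pow_two] using this
    have P02 : PG fun x => g0 x ^ 2 := by
      have := PG0.mul PG0; simpa [pow_two] using this
    have Pg2 : PG fun x => gf V h x ^ 2 := by
      have := PGg.mul PGg; simpa [pow_two] using this
    -- 2 g G - g² = g0² - 2 m d + 2 m g0 - d²  with d = g0 - g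
    have e : ∀ x, g0 x ^ 2 * wt F x = 2 * ((gf V h x * G x) * wt F x) -
        gf V h x ^ 2 * wt F x + (2 * m) * ((g0 x - gf V h x) * wt F x)
          - (2 * m) * (g0 x * wt F x) + (g0 x - gf V h x) ^ 2 * wt F x := by
      intro x
      have : G x = g0 x + m := by rw [hg0]; ring
      rw [this]; ring
    have i1 := (int _ (PGg.mul PGG)).const_mul 2
    have i2 := int _ Pg2
    have i3 := (int _ Pd).const_mul (2 * m)
    have i4 := (int _ PG0).const_mul (2 * m)
    have i5 := int _ Pd2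
    have tot : ∫ x, g0 x ^ 2 * wt F x = 2 * (∫ x, (gf V h x * G x) * wt F x) -
        (∫ x, gf V h x ^ 2 * wt F x) + (2 * m) * (∫ x, (g0 x - gf V h x) * wt F x) +
          ∫ x, (g0 x - gf V h x) ^ 2 * wt F x := by
      have j1 : Integrable fun x => 2 * ((gf V h x * G x) * wt F x) -
          gf V h x ^ 2 * wt F x := i1.sub i2
      have j2 : Integrable fun x => 2 * ((gf V h x * G x) * wt F x) -
          gf V h x ^ 2 * wt F x + (2 * m) * ((g0 x - gf V h x) * wt F x) := j1.add i3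
      have j3 : Integrable fun x => 2 * ((gf V h x * G x) * wt F x) -
          gf V h x ^ 2 * wt F x + (2 * m) * ((g0 x - gf V h x) * wt F x)
          - (2 * m) * (g0 x * wt F x) := j2.sub i4
      simp only [e]
      rw [integral_add j3 i5, integral_sub j2 i4, integral_add j1 i3, integral_sub i1 i2,
        integral_const_mul, integral_const_mul, integral_const_mul, mean0]
      ring
    have am : (2 * m) * (∫ x, (g0 x - gf V h x) * wt F x) ≤
        δ * m ^ 2 * Z + δ⁻¹ * ∫ x, (g0 x - gf V h x) ^ 2 * wt F x := by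
      have a1 : ∀ x, (2 * m) * ((g0 x - gf V h x) * wt F x) ≤
          δ * m ^ 2 * wt F x + δ⁻¹ * ((g0 x - gf V h x) ^ 2 * wt F x) := by
        intro x
        have hw : 0 ≤ wt F x := Real.exp_nonneg _
        have : 2 * m * (g0 x - gf V h x) ≤
            δ * m ^ 2 + δ⁻¹ * (g0 x - gf V h x) ^ 2 := by
          have h0 : 0 ≤ δ⁻¹ * (δ * m - (g0 x - gf V h x)) ^ 2 := by positivity
          have h1 : δ⁻¹ * (δ * m - (g0 x - gf V h x)) ^ 2 =
              δ * m ^ 2 - 2 * m * (g0 x - gf V h x) + δ⁻¹ * (g0 x - gf V h x) ^ 2 := by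
            field_simp
            ring
          linarith
        calc (2 * m) * ((g0 x - gf V h x) * wt F x)
            = (2 * m * (g0 x - gf V h x)) * wt F x := by ring
          _ ≤ (δ * m ^ 2 + δ⁻¹ * (g0 x - gf V h x) ^ 2) * wt F x :=
              mul_le_mul_of_nonneg_right this hw
          _ = _ := by ring
      have := integral_mono i3 ((iw.const_mul (δ * m ^ 2)).add (i5.const_mul δ⁻¹)) a1
      rw [integral_const_mul] at this
      have e2 : ∫ x, (δ * m ^ 2 * wt F x + δ⁻¹ * ((g0 x - gf V h x) ^ 2 * wt F x)) =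
          δ * m ^ 2 * Z + δ⁻¹ * ∫ x, (g0 x - gf V h x) ^ 2 * wt F x := by
        rw [integral_add (iw.const_mul (δ * m ^ 2)) (i5.const_mul δ⁻¹), integral_const_mul,
          integral_const_mul]
      exact this.trans e2.le
    have hinv : δ⁻¹ * ∫ x, (g0 x - gf V h x) ^ 2 * wt F x ≤ δ := by
      calc δ⁻¹ * ∫ x, (g0 x - gf V h x) ^ 2 * wt F x ≤ δ⁻¹ * δ ^ 2 :=
            mul_le_mul_of_nonneg_left hlt'.le (by positivity)
        _ = δ := by field_simp
    have main' : 2 * ∫ x, (gf V h x * G x) * wt F x ≤ D + ∫ x, gf V h x ^ 2 * wt F x := main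
    nlinarith [tot, am, hinv, main', hlt']
  have fin : ∫ x, g0 x ^ 2 * wt F x ≤ D := by
    refine le_of_forall_pos_lt_add fun ε hε => ?_
    set B : ℝ := m ^ 2 * Z + 2 with hB
    have hBpos : 0 < B := by positivity
    set δ : ℝ := min 1 (ε / (2 * B)) with hδ
    have hδpos : 0 < δ := lt_min one_pos (by positivity)
    have h1 : δ ≤ 1 := min_le_left _ _
    have h2 : δ ≤ ε / (2 * B) := min_le_right _ _
    have h3 := lim δ hδpos
    have h4 : δ * (m ^ 2 * Z + 1 + δ) ≤ ε / (2 * B) * B :=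
      mul_le_mul h2 (by rw [hB]; linarith) (by positivity) (by positivity)
    have h5 : ε / (2 * B) * B = ε / 2 := by field_simp
    linarith
  have sq0 : ∫ x, g0 x ^ 2 * wt F x = (∫ x, G x ^ 2 * wt F x) - m ^ 2 * Z := by
    have PG2 : PG fun x => G x ^ 2 := by
      have := PGG.mul PGG; simpa [pow_two] using this
    have e : ∀ x, g0 x ^ 2 * wt F x = G x ^ 2 * wt F x - (2 * m) * (G x * wt F x) +
        m ^ 2 * wt F x := fun x => by rw [hg0]; ring
    have j1 : Integrable fun x => G x ^ 2 * wt F x - (2 * m) * (G x * wt F x) :=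
      (int _ PG2).sub ((int _ PGG).const_mul _)
    simp only [e]
    rw [integral_add j1 (iw.const_mul _),
      integral_sub (int _ PG2) ((int _ PGG).const_mul _), integral_const_mul,
      integral_const_mul, hmZ]
    ring
  have goal : Z * (∫ x, G x ^ 2 * wt F x) - (∫ x, G x * wt F x) ^ 2 ≤ Z * D := by
    rw [hmZ]
    rw [sq0] at fin
    nlinarith
  exact goal

end CM4
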